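import Pool.Agent.Q157.DC.Stm

/-!
Project DC (helper157), jobs indep and fkg.
-/

set_option autoImplicit false

open Finset

namespace Pool.Agent.Q95.DD

open Pool.Agent.Q157.DC

/-- total mass one -/
lemma wt_sum {ι : Type} [Fintype ι] [DecidableEq ι] (r : ι → ℝ) : ∑ ω, wt r ω = 1 := by
  unfold wt
  have h := Finset.prod_univ_sum (fun _ : ι => (Finset.univ : Finset Bool))
    (fun (i : ι) (b : Bool) => if b = true then r i else 1 - r i)
  rw [Fintype.piFinset_univ] at h
  rw [← h]
  apply Finset.prod_eq_one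
  intro i _
  rw [Fintype.sum_bool]
  simp

/-- the exchange of the coordinates in `T` -/
def sw {ι : Type} (T : Set ι) [DecidablePred (· ∈ T)] (q : (ι → Bool) × (ι → Bool)) :
    (ι → Bool) × (ι → Bool) :=
  (fun i => if i ∈ T then q.2 i else q.1 i, fun i => if i ∈ T then q.1 i else q.2 i)

lemma sw_sw {ι : Type} (T : Set ι) [DecidablePred (· ∈ T)] : Function.Involutive (sw T) := by
  intro q
  apply Prod.ext
  · funext i
    by_cases h : i ∈ T <;> simp [sw, h]
  · funext i
    by_cases h : i ∈ T <;> simp [sw, h]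

lemma wt_sw {ι : Type} [Fintype ι] (r : ι → ℝ) (T : Set ι) [DecidablePred (· ∈ T)]
    (q : (ι → Bool) × (ι → Bool)) :
    wt r (sw T q).1 * wt r (sw T q).2 = wt r q.1 * wt r q.2 := by
  unfold wt
  rw [← Finset.prod_mul_distrib, ← Finset.prod_mul_distrib]
  apply Finset.prod_congr rfl
  intro i _
  by_cases h : i ∈ T
  · simp only [sw, h, if_true]
    ring
  · simp only [sw, h, if_false]

/-- two functions -/
lemma ex_two {ι : Type} [Fintype ι] [DecidableEq ι] (r : ι → ℝ) (S T : Set ι)
    (f g : (ι → Bool) → ℝ) (hST : Disjoint S T) (hf : DepOn S f) (hg : DepOn T g) :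
    Ex r (fun ω => f ω * g ω) = Ex r f * Ex r g := by
  classical
  have h1 : Ex r f * Ex r g
      = ∑ q : (ι → Bool) × (ι → Bool), (wt r q.1 * wt r q.2) * (f q.1 * g q.2) := by
    unfold Ex
    rw [Finset.sum_mul_sum, Fintype.sum_prod_type]
    refine Finset.sum_congr rfl fun a _ => Finset.sum_congr rfl fun b _ => ?_
    ring
  have h2 : ∑ q : (ι → Bool) × (ι → Bool), (wt r q.1 * wt r q.2) * (f q.1 * g q.2)
      = ∑ q : (ι → Bool) × (ι → Bool), (wt r q.1 * wt r q.2) * (f q.1 * g q.1) := by
    refine Fintype.sum_equiv (sw_sw T).toPerm _ _ fun q => ?_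
    show wt r q.1 * wt r q.2 * (f q.1 * g q.2)
      = wt r (sw T q).1 * wt r (sw T q).2 * (f (sw T q).1 * g (sw T q).1)
    rw [wt_sw]
    have e1 : f q.1 = f (sw T q).1 := by
      apply hf
      intro i hi
      have : i ∉ T := fun h => Set.disjoint_left.mp hST hi h
      simp [sw, this]
    have e2 : g q.2 = g (sw T q).1 := by
      apply hg
      intro i hi
      simp [sw, hi]
    rw [e1, e2]
  rw [h1, h2, Fintype.sum_prod_type]
  unfold Ex
  refine Finset.sum_congr rfl fun a _ => ?_
  have h3 : ∀ b : ι → Bool, wt r a * wt r b * (f a * g a) = wt r b * (wt r a * (f a * g a)) :=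
    fun b => by ring
  rw [Finset.sum_congr rfl (fun b _ => h3 b), ← Finset.sum_mul, wt_sum, one_mul]

theorem ex_prod : S_ex_prod := by
  intro ι _ _ r τ F S f hS hf
  classical
  induction F using Finset.induction_on with
  | empty =>
    simp only [Finset.prod_empty]
    unfold Ex
    simp only [mul_one]
    exact wt_sum r
  | insert a F ha ih =>
    have h1 : (fun ω => ∏ t ∈ insert a F, f t ω) = fun ω => f a ω * ∏ t ∈ F, f t ω := by
      funext ω
      rw [Finset.prod_insert ha]
    rw [h1, ex_two r (S a) (⋃ t ∈ F, S t) (f a) (fun ω => ∏ t ∈ F, f t ω), Finset.prod_insert ha,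
      ih (fun t ht t' ht' => hS t (Finset.mem_insert_of_mem ht) t' (Finset.mem_insert_of_mem ht'))
        (fun t ht => hf t (Finset.mem_insert_of_mem ht))]
    · rw [Set.disjoint_iUnion₂_right]
      intro t ht
      apply hS a (Finset.mem_insert_self a F) t (Finset.mem_insert_of_mem ht)
      rintro rfl
      exact ha ht
    · exact hf a (Finset.mem_insert_self a F)
    · intro ω ω' h
      apply Finset.prod_congr rfl
      intro t ht
      apply hf t (Finset.mem_insert_of_mem ht)
      intro i hi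
      exact h i (Set.mem_iUnion₂.mpr ⟨t, ht, hi⟩)

lemma pr_eq_ex {ι : Type} [Fintype ι] [DecidableEq ι] (r : ι → ℝ) (A : (ι → Bool) → Prop)
    [DecidablePred A] : Pr r A = Ex r (fun ω => if A ω then 1 else 0) := by
  unfold Pr Ex
  refine Finset.sum_congr rfl fun ω _ => ?_
  by_cases h : A ω
  · simp [h]
  · simp [h]

theorem pr_forall (h : S_ex_prod) : S_pr_forall := by
  intro ι _ _ r τ F S A hS hA
  classical
  have h1 := h r F S (fun t ω => if A t ω then 1 else 0) hS (fun t ht ω ω' hω => by
    have e := hA t ht ω ω' hω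
    show (if A t ω then (1 : ℝ) else 0) = if A t ω' then 1 else 0
    simp only [e])
  rw [pr_eq_ex, Finset.prod_congr rfl (fun t _ => pr_eq_ex r (A t)), ← h1]
  congr 1
  funext ω
  by_cases h2 : ∀ t ∈ F, A t ω
  · rw [if_pos h2]
    exact (Finset.prod_eq_one (fun t ht => if_pos (h2 t ht))).symm
  · rw [if_neg h2]
    push Not at h2
    obtain ⟨t, ht, h3⟩ := h2
    exact (Finset.prod_eq_zero ht (if_neg h3)).symm

theorem pr_and (h : S_pr_forall) : S_pr_and := by
  intro ι _ _ r S T A B hST hA hB
  have h1 := h r (Finset.univ : Finset Bool) (fun b => if b = true then S else T)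
    (fun b => if b = true then A else B) (by
      intro t _ t' _ htt
      rcases t with _ | _ <;> rcases t' with _ | _
      · exact absurd rfl htt
      · simpa using hST.symm
      · simpa using hST
      · exact absurd rfl htt) (by
      intro t _
      rcases t with _ | _
      · simpa using hB
      · simpa using hA)
  rw [Fintype.prod_bool] at h1
  have e : (fun ω => ∀ t ∈ (Finset.univ : Finset Bool), (if t = true then A else B) ω)
      = fun ω => A ω ∧ B ω := by
    funext ω
    apply propext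
    constructor
    · intro h2
      exact ⟨by simpa using h2 true (Finset.mem_univ _), by simpa using h2 false (Finset.mem_univ _)⟩
    · rintro ⟨h2, h3⟩ t _
      rcases t with _ | _
      · simpa using h3
      · simpa using h2
  rw [e] at h1
  simpa using h1

/-! ### Harris inequality -/

lemma wt_mul {ι : Type} [Fintype ι] (r : ι → ℝ) (a b : ι → Bool) :
    wt r a * wt r b = wt r (a ⊓ b) * wt r (a ⊔ b) := by
  unfold wt
  rw [← Finset.prod_mul_distrib, ← Finset.prod_mul_distrib]
  apply Finset.prod_congr rfl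
  intro i _
  rw [Pi.inf_apply, Pi.sup_apply]
  rcases a i with _ | _ <;> rcases b i with _ | _ <;> simp [mul_comm]

lemma fkg_two (h : S_basic) {ι : Type} [Fintype ι] [DecidableEq ι] (r : ι → ℝ)
    (hr : ∀ i, 0 ≤ r i ∧ r i ≤ 1) (A B : (ι → Bool) → Prop)
    (hA : ∀ ω ω' : ι → Bool, (∀ i, ω i = true → ω' i = true) → A ω' → A ω)
    (hB : ∀ ω ω' : ι → Bool, (∀ i, ω i = true → ω' i = true) → B ω' → B ω) :
    Pr r A * Pr r B ≤ Pr r (fun ω => A ω ∧ B ω) := by
  classical
  obtain ⟨h0, h1, -⟩ := h r hr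
  let μ : (ι → Bool)ᵒᵈ → ℝ := fun ω => wt r (OrderDual.ofDual ω)
  let f : ((ι → Bool) → Prop) → (ι → Bool)ᵒᵈ → ℝ := fun C ω => if C (OrderDual.ofDual ω) then 1 else 0
  have hmono : ∀ C : (ι → Bool) → Prop,
      (∀ ω ω' : ι → Bool, (∀ i, ω i = true → ω' i = true) → C ω' → C ω) → Monotone (f C) := by
    intro C hC a b hab
    show (if C (OrderDual.ofDual a) then (1 : ℝ) else 0) ≤ if C (OrderDual.ofDual b) then 1 else 0
    by_cases ha : C (OrderDual.ofDual a)
    · have hb : C (OrderDual.ofDual b) := by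
        apply hC _ _ _ ha
        intro i hi
        have h2 : (OrderDual.ofDual b) ≤ (OrderDual.ofDual a) := hab
        have h3 := h2 i
        rw [hi] at h3
        exact top_le_iff.mp h3
      rw [if_pos ha, if_pos hb]
    · rw [if_neg ha]
      split_ifs <;> norm_num
  have hnn : ∀ C : (ι → Bool) → Prop, 0 ≤ f C := by
    intro C ω
    show (0 : ℝ) ≤ if C (OrderDual.ofDual ω) then 1 else 0
    split_ifs <;> norm_num
  have key := fkg (f := f A) (g := f B) (μ := μ) (fun ω => h0 _) (hnn A) (hnn B)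
    (hmono A hA) (hmono B hB) (fun a b => by
      show wt r (OrderDual.ofDual a) * wt r (OrderDual.ofDual b) ≤ _
      rw [wt_mul, mul_comm]
      exact le_refl _)
  have e1 : ∀ C : (ι → Bool) → Prop, ∑ ω : (ι → Bool)ᵒᵈ, μ ω * f C ω = Pr r C := by
    intro C
    rw [pr_eq_ex]
    rfl
  have e2 : ∑ ω : (ι → Bool)ᵒᵈ, μ ω = 1 := h1
  have e3 : ∑ ω : (ι → Bool)ᵒᵈ, μ ω * (f A ω * f B ω) = Pr r (fun ω => A ω ∧ B ω) := by
    rw [← e1]
    refine Finset.sum_congr rfl fun ω _ => ?_
    have hf1 : ∀ C : (ι → Bool) → Prop, C (OrderDual.ofDual ω) → f C ω = 1 :=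
      fun C hC => if_pos hC
    have hf0 : ∀ C : (ι → Bool) → Prop, ¬ C (OrderDual.ofDual ω) → f C ω = 0 :=
      fun C hC => if_neg hC
    by_cases ha : A (OrderDual.ofDual ω)
    · by_cases hb : B (OrderDual.ofDual ω)
      · rw [hf1 A ha, hf1 B hb, hf1 (fun ω => A ω ∧ B ω) ⟨ha, hb⟩, mul_one]
      · rw [hf0 B hb, hf0 (fun ω => A ω ∧ B ω) (fun h => hb h.2), mul_zero]
    · rw [hf0 A ha, hf0 (fun ω => A ω ∧ B ω) (fun h => ha h.1), zero_mul]
  rw [e1, e1, e2, e3, one_mul] at key
  exact key

theorem fkg' (h : S_basic) : S_fkg := by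
  intro ι _ _ r hr τ F A hA
  classical
  obtain ⟨h0, h1, h2, h3, -⟩ := h r hr
  induction F using Finset.induction_on with
  | empty =>
    rw [Finset.prod_empty]
    have e : Pr r (fun ω : ι → Bool => ∀ t ∈ (∅ : Finset τ), A t ω) = 1 := by
      rw [← h1]
      unfold Pr
      refine Finset.sum_congr rfl fun ω _ => ?_
      rw [if_pos]
      intro t ht
      exact absurd ht (Finset.notMem_empty t)
    rw [e]
  | insert a F ha ih =>
    have ih' := ih (fun t ht => hA t (Finset.mem_insert_of_mem ht))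
    rw [Finset.prod_insert ha]
    have h4 := fkg_two h r hr (A a) (fun ω => ∀ t ∈ F, A t ω)
      (hA a (Finset.mem_insert_self a F)) (fun ω ω' hω h5 t ht =>
        hA t (Finset.mem_insert_of_mem ht) ω ω' hω (h5 t ht))
    have e : (fun ω => ∀ t ∈ insert a F, A t ω) = fun ω => A a ω ∧ ∀ t ∈ F, A t ω := by
      funext ω
      apply propext
      exact Finset.forall_mem_insert a F _
    rw [e]
    exact (mul_le_mul_of_nonneg_left ih' (h2 (A a)).1).trans h4

end Pool.Agent.Q95.DD
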