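import Pool.Agent.Q95.DD.Indep

/-!
Project DC (helper157), job poor.
-/

set_option autoImplicit false

open Finset
open scoped symmDiff

namespace Pool.Agent.Q95.DD

open Pool.Agent.Q157.DC

open Classical in
/-- the factor of the direction `i` at `v` -/
noncomputable def fac {n : ℕ} (θ : ℝ) (t : Σ _ : Vx n, Fin n) (ω : Om n) : ℝ :=
  if pres ω (t.1 ∆ {t.2}) ∧ opn ω t.1 (t.1 ∆ {t.2}) then θ else 1

/-- its marks -/
def mk {n : ℕ} (t : Σ _ : Vx n, Fin n) : Set (Ix n) :=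
  {Sum.inl (t.1 ∆ {t.2}), Sum.inr s(t.1, t.1 ∆ {t.2})}

lemma fac_dep {n : ℕ} (θ : ℝ) (t : Σ _ : Vx n, Fin n) : DepOn (mk t) (fac θ t) := by
  intro ω ω' h
  have h1 := h (Sum.inl (t.1 ∆ {t.2})) (by simp [mk])
  have h2 := h (Sum.inr s(t.1, t.1 ∆ {t.2})) (by simp [mk])
  unfold fac pres opn
  rw [h1, h2]

lemma ex_fac (h5 : S_cyl) {n : ℕ} (pv pe θ : ℝ) (t : Σ _ : Vx n, Fin n) :
    Ex (rt pv pe n) (fac θ t) = 1 - pv * pe + pv * pe * θ := by
  classical
  have h1 := h5 (rt pv pe n) {Sum.inl (t.1 ∆ {t.2}), Sum.inr s(t.1, t.1 ∆ {t.2})}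
  rw [Finset.prod_pair (by simp)] at h1
  have e1 : rt pv pe n (Sum.inl (t.1 ∆ {t.2})) = pv := rfl
  have e2 : rt pv pe n (Sum.inr s(t.1, t.1 ∆ {t.2})) = pe := rfl
  rw [e1, e2] at h1
  have e3 : (fun ω : Ix n → Bool => ∀ i ∈ ({Sum.inl (t.1 ∆ {t.2}),
      Sum.inr s(t.1, t.1 ∆ {t.2})} : Finset (Ix n)), ω i = true)
      = fun ω => pres ω (t.1 ∆ {t.2}) ∧ opn ω t.1 (t.1 ∆ {t.2}) := by
    funext ω
    apply propext
    unfold pres opn
    simp
  rw [e3, pr_eq_ex] at h1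
  have h2 : ∀ ω, wt (rt pv pe n) ω * fac θ t ω = wt (rt pv pe n) ω
      - (1 - θ) * (wt (rt pv pe n) ω *
        (if pres ω (t.1 ∆ {t.2}) ∧ opn ω t.1 (t.1 ∆ {t.2}) then 1 else 0)) := by
    intro ω
    unfold fac
    by_cases h : pres ω (t.1 ∆ {t.2}) ∧ opn ω t.1 (t.1 ∆ {t.2})
    · rw [if_pos h, if_pos h]
      ring
    · rw [if_neg h, if_neg h]
      ring
  unfold Ex at h1 ⊢
  rw [Finset.sum_congr rfl (fun ω _ => h2 ω), Finset.sum_sub_distrib, ← Finset.mul_sum, h1,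
    wt_sum]
  ring

lemma nb_self {n : ℕ} (v : Vx n) (i : Fin n) : (v ∆ {i}) ∆ v = {i} := by
  rw [symmDiff_comm, symmDiff_symmDiff_cancel_left]

lemma flip_inj {n : ℕ} {v : Vx n} {i j : Fin n} (h : v ∆ {i} = v ∆ {j}) : i = j := by
  have h1 := nb_self v i
  rw [h, nb_self] at h1
  exact (Finset.singleton_inj.mp h1).symm

lemma flip_ne {n : ℕ} (v : Vx n) (i : Fin n) : v ∆ {i} ≠ v := by
  intro h
  have h1 := nb_self v i
  rw [h, symmDiff_self] at h1
  exact Finset.singleton_ne_empty i h1.symm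

lemma mk_disj {n : ℕ} {S : Finset (Vx n)} {t t' : Σ _ : Vx n, Fin n}
    (ht : t ∈ S.sigma (fun v => Gd S v)) (ht' : t' ∈ S.sigma (fun v => Gd S v)) (hne : t ≠ t') :
    Disjoint (mk t) (mk t') := by
  classical
  obtain ⟨v, i⟩ := t
  obtain ⟨v', i'⟩ := t'
  rw [Finset.mem_sigma] at ht ht'
  obtain ⟨hv, hi⟩ := ht
  obtain ⟨hv', hi'⟩ := ht'
  have hG : ∀ w ∈ S, w ≠ v → ¬ nb (v ∆ {i}) w ∧ v ∆ {i} ≠ w := by
    have h1 : i ∈ Gd S v := hi
    unfold Gd at h1
    exact (Finset.mem_filter.mp h1).2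
  have hinl : v ∆ {i} ≠ v' ∆ {i'} := by
    intro h
    by_cases hvv : v' = v
    · subst hvv
      have := flip_inj h
      subst this
      exact hne rfl
    · apply (hG v' hv' hvv).1
      unfold nb
      rw [h, nb_self]
      exact Finset.card_singleton i'
  have hinr : s(v, v ∆ {i}) ≠ s(v', v' ∆ {i'}) := by
    intro h
    rw [Sym2.eq_iff] at h
    rcases h with ⟨h1, h2⟩ | ⟨h1, h2⟩
    · exact hinl h2
    · by_cases hvv : v' = v
      · rw [hvv] at h2
        exact flip_ne v i h2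
      · exact (hG v' hv' hvv).2 h2
  rw [Set.disjoint_left]
  intro x hx hx'
  unfold mk at hx hx'
  simp only [Set.mem_insert_iff, Set.mem_singleton_iff] at hx hx'
  rcases hx with hx | hx <;> rcases hx' with hx' | hx'
  · rw [hx] at hx'
    exact hinl (Sum.inl.inj hx')
  · rw [hx] at hx'
    exact absurd hx' (by simp)
  · rw [hx] at hx'
    exact absurd hx' (by simp)
  · rw [hx] at hx'
    exact hinr (Sum.inr.inj hx')

theorem poor' (h1 : S_basic) (h2 : S_ex_prod) (h3 : S_Gd) (_h4 : S_pr_and) (h5 : S_cyl) :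
    S_poor := by
  classical
  intro pv pe hpv hpv1 hpe hpe1 n θ D hθ hθ1 hD S
  have hr : ∀ i, 0 ≤ rt pv pe n i ∧ rt pv pe n i ≤ 1 := by
    intro i
    rcases i with i | i
    · exact ⟨hpv.le, hpv1⟩
    · exact ⟨hpe.le, hpe1⟩
  obtain ⟨-, -, -, -, -, -, -, hmark⟩ := h1 (rt pv pe n) hr
  set x := 1 - pv * pe + pv * pe * θ with hx
  have hpp : pv * pe ≤ 1 := mul_le_one₀ hpv1 hpe.le hpe1
  have hpp0 : 0 < pv * pe := mul_pos hpv hpe
  have hx0 : 0 ≤ x := by
    rw [hx]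
    nlinarith [mul_pos hpp0 hθ]
  have hx1 : x ≤ 1 := by
    rw [hx]
    nlinarith
  have hθD : 0 < θ ^ (-D) := Real.rpow_pos_of_pos hθ _
  set F := S.sigma (fun v => Gd S v) with hF
  have hfac0 : ∀ t ω, 0 ≤ fac (n := n) θ t ω := by
    intro t ω
    unfold fac
    split_ifs
    · exact hθ.le
    · exact zero_le_one
  have hev : Pr (rt pv pe n) (fun ω => ∀ v ∈ S, ((op ω v).card : ℝ) < D)
      ≤ Ex (rt pv pe n) (fun ω => (θ ^ (-D)) ^ S.card * ∏ t ∈ F, fac θ t ω) := by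
    apply hmark
    · intro ω
      exact mul_nonneg (pow_nonneg hθD.le _) (Finset.prod_nonneg fun t _ => hfac0 t ω)
    · intro ω hω
      rw [hF, Finset.prod_sigma, ← Finset.prod_const, ← Finset.prod_mul_distrib]
      refine le_trans (Finset.prod_const_one (s := S) (M := ℝ)).ge
        (Finset.prod_le_prod (fun _ _ => zero_le_one) ?_)
      intro v hv
      have hop := hω v hv
      have e : ∏ i ∈ Gd S v, fac θ ⟨v, i⟩ ω = θ ^ ((Gd S v).filter (fun i => i ∈ op ω v)).card := by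
        rw [← Finset.prod_const, Finset.prod_filter]
        refine Finset.prod_congr rfl fun i _ => ?_
        unfold fac op
        simp only [Finset.mem_filter, Finset.mem_univ, true_and]
      rw [e]
      have hcard : (((Gd S v).filter (fun i => i ∈ op ω v)).card : ℝ) ≤ D := by
        have h6 : ((Gd S v).filter (fun i => i ∈ op ω v)).card ≤ (op ω v).card := by
          apply Finset.card_le_card
          intro i hi
          exact (Finset.mem_filter.mp hi).2
        have h7 : (((Gd S v).filter (fun i => i ∈ op ω v)).card : ℝ) ≤ (op ω v).card := by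
          exact_mod_cast h6
        linarith
      have h8 : θ ^ D ≤ θ ^ ((Gd S v).filter (fun i => i ∈ op ω v)).card := by
        rw [← Real.rpow_natCast]
        exact Real.rpow_le_rpow_of_exponent_ge hθ hθ1 hcard
      have h9 : θ ^ (-D) * θ ^ D = 1 := by
        rw [← Real.rpow_add hθ, neg_add_cancel, Real.rpow_zero]
      rw [← h9]
      exact mul_le_mul_of_nonneg_left h8 hθD.le
  refine hev.trans ?_
  have hEx : Ex (rt pv pe n) (fun ω => (θ ^ (-D)) ^ S.card * ∏ t ∈ F, fac θ t ω)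
      = (θ ^ (-D)) ^ S.card * x ^ F.card := by
    have h6 := h2 (rt pv pe n) F mk (fac θ)
      (fun t ht t' ht' hne => mk_disj ht ht' hne) (fun t _ => fac_dep θ t)
    rw [Finset.prod_congr rfl (fun t _ => ex_fac h5 pv pe θ t), Finset.prod_const, ← hx] at h6
    rw [← h6]
    unfold Ex
    rw [Finset.mul_sum]
    refine Finset.sum_congr rfl fun ω _ => ?_
    ring
  rw [hEx]
  apply mul_le_mul_of_nonneg_left _ (pow_nonneg hθD.le _)
  apply pow_le_pow_of_le_one hx0 hx1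
  rw [hF, Finset.card_sigma, ← smul_eq_mul]
  apply Finset.card_nsmul_le_sum
  intro v _
  have := h3 n S v
  omega

end Pool.Agent.Q95.DD
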